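import Pool.Agent.Helper76.FT.GoalsC

/-!
# FT-FAM: the family of complex tori over a rectangle (assembly)
-/

set_option autoImplicit false

namespace Pool.Agent.Helper45.FT

open Complex Set Filter Topology Pool.Agent.Helper76.FT

theorem ft_fam (hReg : GReg) (hMom : GMom) (hMn : GMn) (hTorP : GTorP) (hThin : GThin)
    (hPos : GPos) (hShrink : GShrink) (hStrip : GStrip) (hExist : GExist) (hHolo : GHolo)
    (hLow : GLow) (hContS : GContS) : GFam := by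
  intro S hS Y₁ hY₁ Y₂ hY₂ hY₁0 hY₂0
  obtain ⟨-, hregV, -⟩ := hReg S hS
  obtain ⟨k0, M1, hk0, hM1, torP⟩ := hTorP S hS
  obtain ⟨k0', M2, hk0', hM2, momC, -, momP⟩ := hMom S hS
  obtain ⟨mnC, mnS, mn0⟩ := hMn S hS
  obtain ⟨dT, hdT, thin⟩ := hThin S hS
  obtain ⟨dP, hdP, pos⟩ := hPos S hS
  obtain ⟨dS, a1, k, hdS, ha1, hk, strip⟩ := hStrip S hS
  obtain ⟨dE, hdE, exist⟩ := hExist S hS
  obtain ⟨dH, hdH, holo⟩ := hHolo S hS
  obtain ⟨dC, hdC, contS⟩ := hContS S hS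
  obtain ⟨m, hm, low⟩ := hLow S hS
  have hr := hS.hr
  obtain ⟨δ, hδ, hδT, hδP, hδS, hδE, hδH, hδC, hδr⟩ : ∃ δ : ℝ, 0 < δ ∧ δ ≤ dT ∧ δ ≤ dP ∧
      δ ≤ dS ∧ δ ≤ dE ∧ δ ≤ dH ∧ δ ≤ dC ∧ δ ≤ S.r / 2 := by
    refine ⟨min dT (min dP (min dS (min dE (min dH (min dC (S.r / 2)))))), ?_, ?_⟩
    · simp only [lt_min_iff]
      exact ⟨hdT, hdP, hdS, hdE, hdH, hdC, by linarith⟩
    · refine ⟨min_le_left _ _, ?_⟩
      have e : ∀ {x a b c : ℝ}, x ≤ min a b → x ≤ a ∧ x ≤ b := fun h => le_min_iff.1 h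
      have h0 : min dT (min dP (min dS (min dE (min dH (min dC (S.r / 2)))))) ≤
        min dP (min dS (min dE (min dH (min dC (S.r / 2))))) := min_le_right _ _
      simpa only [le_min_iff] using h0
  obtain ⟨η, hη, ex⟩ := exist δ hδ hδE Y₁ hY₁ Y₂ hY₂ hY₁0 hY₂0
  set c₁ : ℝ := S.mn Y₁ with hc₁
  set c₂ : ℝ := S.mn Y₂ with hc₂
  choose! w0 ρ0 hw0 using ex
  have m01 : (0 : ℝ) ∈ Icc (0 : ℝ) 1 := ⟨le_refl _, zero_le_one⟩
  -- the set of heights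
  set H : ℂ → Set ℝ := fun c => {y | ∃ x : ℝ, ∃ t ∈ Icc (0:ℝ) 1, y = (w0 c (x : ℂ) t).im} with hH
  set hh : ℂ → ℝ := fun c => min 1 (sInf (H c)) with hhh
  have Hne : ∀ c, (H c).Nonempty := fun c => ⟨_, 0, 0, m01, rfl⟩
  have Hbdd : ∀ c ∈ Rec c₁ c₂ η, BddBelow (H c) := by
    intro c hc
    refine ⟨0, ?_⟩
    rintro y ⟨x, t, ht, rfl⟩
    exact ((hw0 c hc).1.pos x t ht).1.le
  have hh_pos : ∀ c ∈ Rec c₁ c₂ η, 0 < hh c := by
    intro c hc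
    obtain ⟨h, h0, hle⟩ := pos c.im δ hc.2.2.1 hδP
    refine lt_min one_pos (h0.trans_le (le_csInf (Hne c) ?_))
    rintro y ⟨x, t, ht, rfl⟩
    exact hle (ρ0 c) (w0 c) c (hw0 c hc).1 le_rfl x t ht
  have hh_one : ∀ c, hh c ≤ 1 := fun c => min_le_left _ _
  have hh_le : ∀ c ∈ Rec c₁ c₂ η, ∀ x : ℝ, ∀ t ∈ Icc (0:ℝ) 1, hh c ≤ (w0 c (x : ℂ) t).im := by
    intro c hc x t ht
    exact (min_le_right _ _).trans (csInf_le (Hbdd c hc) ⟨x, t, ht, rfl⟩)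
  have le_hh : ∀ c, ∀ l : ℝ, l ≤ 1 → (∀ x : ℝ, ∀ t ∈ Icc (0:ℝ) 1, l ≤ (w0 c (x : ℂ) t).im) →
      l ≤ hh c := by
    intro c l hl hle
    refine le_min hl (le_csInf (Hne c) ?_)
    rintro y ⟨x, t, ht, rfl⟩
    exact hle x t ht
  -- the tori on the uniform strips
  have exw : ∀ c ∈ Rec c₁ c₂ η, ∃ w' : ℂ → ℝ → ℂ, Tor S δ w' (a1 * hh c ^ k) c ∧
      ∀ x : ℝ, ∀ t ∈ Icc (0:ℝ) 1, w' (x : ℂ) t = w0 c (x : ℂ) t := fun c hc =>
    strip δ (ρ0 c) (w0 c) c hδS (hw0 c hc).1 (hh c) (hh_pos c hc) (hh_one c) (hh_le c hc)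
  choose! w hw hww0 using exw
  have le_hh' : ∀ c ∈ Rec c₁ c₂ η, ∀ l : ℝ, l ≤ 1 →
      (∀ x : ℝ, ∀ t ∈ Icc (0:ℝ) 1, l ≤ (w c (x : ℂ) t).im) → l ≤ hh c := by
    intro c hc l hl hle
    refine le_hh c l hl fun x t ht => ?_
    rw [← hww0 c hc x t ht]
    exact hle x t ht
  -- the inverse of the mean momentum
  have hsub : Icc Y₁ Y₂ ⊆ Icc S.a S.b := Icc_subset_Icc hY₁.1.le hY₂.2.le
  have hY12 : Y₁ ≤ Y₂ := (hY₁0.trans hY₂0).le
  have exY : ∀ c' ∈ Ioo c₁ c₂, ∃ Y ∈ Ioo Y₁ Y₂, S.mn Y = c' := by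
    intro c' hc'
    obtain ⟨Y, hY, hYe⟩ := intermediate_value_Icc hY12 (mnC.mono hsub) (Ioo_subset_Icc_self hc')
    refine ⟨Y, ⟨?_, ?_⟩, hYe⟩
    · rcases eq_or_lt_of_le hY.1 with h | h
      · exfalso
        rw [← h] at hYe
        have := hc'.1
        rw [← hYe] at this
        exact lt_irrefl _ this
      · exact h
    · rcases eq_or_lt_of_le hY.2 with h | h
      · exfalso
        rw [h] at hYe
        have := hc'.2
        rw [← hYe] at this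
        exact lt_irrefl _ this
      · exact h
  choose! Yof hYof hmnY using exY
  -- momentum on the leaves is real
  have preal : ∀ Y ∈ Icc S.a S.b, ∀ x : ℝ,
      S.p 0 (x : ℂ) (S.V Y x 0 : ℂ) = ((S.p 0 (x : ℂ) (S.V Y x 0 : ℂ)).re : ℂ) := by
    intro Y hY x
    have hnb : ((x : ℂ), (S.V Y x 0 : ℂ)) ∈ S.Nb 0 S.r := by
      refine ⟨(x, S.V Y x 0), hregV 0 m01 x Y hY, ?_, ?_⟩
      · simpa using hr
      · simpa using hr
    have h := ((momP 0 m01).2.2 _ hnb).2.2.2.2.2.2.2.2.2.1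
    simp only [Complex.conj_ofReal] at h
    exact (Complex.conj_eq_iff_re.1 h.symm).symm
  have nbleaf : ∀ Y ∈ Icc S.a S.b, ∀ x : ℝ, ((x : ℂ), (S.V Y x 0 : ℂ)) ∈ S.Nb 0 S.r := by
    intro Y hY x
    refine ⟨(x, S.V Y x 0), hregV 0 m01 x Y hY, ?_, ?_⟩
    · simpa using hr
    · simpa using hr
  set M : ℝ := max M1 M2 with hMdef
  set m' : ℝ := min m 1 with hm'
  have hm'0 : 0 < m' := lt_min hm one_pos
  have hm'1 : m' ≤ 1 := min_le_right _ _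
  -- height from momentum
  have lowh : ∀ c ∈ Rec c₁ c₂ η, ∀ h : ℝ, 0 < h → (∀ x : ℝ, h ≤ (S.p 0 (x : ℂ) (w c x 0)).im) →
      ∀ x : ℝ, ∀ t ∈ Icc (0:ℝ) 1, m' * h ≤ (w c (x : ℂ) t).im := by
    intro c hc h h0 hle x t ht
    exact (mul_le_mul_of_nonneg_right (min_le_left _ _) h0.le).trans
      (low δ _ (w c) c (hw c hc) h hle x t ht)
  have strle : ∀ c ∈ Rec c₁ c₂ η, ∀ h : ℝ, 0 < h → h ≤ 1 →
      (∀ x : ℝ, h ≤ (S.p 0 (x : ℂ) (w c x 0)).im) → a1 * m' ^ k * h ^ k ≤ a1 * hh c ^ k := by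
    intro c hc h h0 h1 hle
    have h2 : m' * h ≤ hh c := by
      refine le_hh' c hc _ ?_ (lowh c hc h h0 hle)
      calc m' * h ≤ 1 * 1 := mul_le_mul hm'1 h1 h0.le zero_le_one
        _ = 1 := one_mul 1
    rw [mul_assoc, ← mul_pow]
    exact mul_le_mul_of_nonneg_left (pow_le_pow_left₀ (by positivity) h2 k) ha1.le
  refine ⟨fun z c => S.p 0 z (w c z 0), fun c' x => (S.p 0 (x : ℂ) (S.V (Yof c') x 0 : ℂ)).re,
    η, a1 * m' ^ k, M, k, hη, by positivity, hk, ?_, ?_, ?_, ?_, ?_, ?_, ?_⟩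
  · -- (2)
    intro x
    have hopen : IsOpen (Rec c₁ c₂ η) := by
      have : Rec c₁ c₂ η = {c : ℂ | c₁ < c.re} ∩ ({c : ℂ | c.re < c₂} ∩
          ({c : ℂ | 0 < c.im} ∩ {c : ℂ | c.im < η})) := by
        ext c; simp [Rec]
      rw [this]
      exact (isOpen_lt continuous_const Complex.continuous_re).inter
        ((isOpen_lt Complex.continuous_re continuous_const).inter
          ((isOpen_lt continuous_const Complex.continuous_im).inter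
            (isOpen_lt Complex.continuous_im continuous_const)))
    refine holo δ (Rec c₁ c₂ η) w hδH hopen (fun c hc => ⟨_, hw c hc⟩) ?_ x
    intro c₀ hc₀
    have hc0 : 0 < c₀.im := hc₀.2.2.1
    obtain ⟨h, h0, hle⟩ := pos (c₀.im / 2) δ (by linarith) hδP
    refine ⟨h, h0, ?_⟩
    have e1 : ∀ᶠ c in 𝓝 c₀, c ∈ Rec c₁ c₂ η := hopen.mem_nhds hc₀
    have e2 : ∀ᶠ c : ℂ in 𝓝 c₀, c₀.im / 2 < c.im :=
      (isOpen_lt continuous_const Complex.continuous_im).mem_nhds (by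
        show c₀.im / 2 < c₀.im
        linarith)
    filter_upwards [e1, e2] with c hc1 hc2 y t ht
    exact hle _ (w c) c (hw c hc1) hc2.le y t ht
  · -- (3)
    intro x c hc
    obtain ⟨sh, -, -, -, -, -, b⟩ := torP δ _ (w c) c (hw c hc)
    obtain ⟨b1, b2, b3, b4, b5, b6⟩ := b x 0 m01
    refine ⟨b4.trans (le_max_left _ _), ?_, ?_⟩
    · have := ((hw c hc).pos x 0 m01).1
      exact (mul_pos hk0 this).trans_le b1
    · refine sh.per (x : ℂ) ?_ 0 m01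
      show |(x : ℂ).im| < _
      simpa using (hw c hc).hρ
  · -- (4)
    intro x c' hc'
    set Y : ℝ := Yof c' with hYdef
    have hYm : Y ∈ Ioo Y₁ Y₂ := hYof c' hc'
    have hYI : Y ∈ Icc S.a S.b := hsub (Ioo_subset_Icc_self hYm)
    have target : ((S.p 0 (x : ℂ) (S.V Y x 0 : ℂ)).re : ℂ) = S.p 0 (x : ℂ) (S.V Y x 0 : ℂ) :=
      (preal Y hYI x).symm
    show Tendsto (fun c => S.p 0 (x : ℂ) (w c x 0)) (𝓝[Rec c₁ c₂ η] (c' : ℂ))
      (𝓝 (((S.p 0 (x : ℂ) (S.V Y x 0 : ℂ)).re : ℝ) : ℂ))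
    rw [target]
    -- continuity of the inverse
    have hre : Tendsto (fun c : ℂ => c.re) (𝓝[Rec c₁ c₂ η] (c' : ℂ)) (𝓝 c') := by
      have := (Complex.continuous_re.tendsto (c' : ℂ)).mono_left
        (nhdsWithin_le_nhds (s := Rec c₁ c₂ η))
      simpa using this
    have him : Tendsto (fun c : ℂ => c.im) (𝓝[Rec c₁ c₂ η] (c' : ℂ)) (𝓝 0) := by
      have := (Complex.continuous_im.tendsto (c' : ℂ)).mono_left
        (nhdsWithin_le_nhds (s := Rec c₁ c₂ η))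
      simpa using this
    have hmem : ∀ᶠ c in 𝓝[Rec c₁ c₂ η] (c' : ℂ), c ∈ Rec c₁ c₂ η := self_mem_nhdsWithin
    have hYt : Tendsto (fun c : ℂ => Yof c.re) (𝓝[Rec c₁ c₂ η] (c' : ℂ)) (𝓝 Y) := by
      rw [Metric.tendsto_nhds]
      intro ε hε
      -- choose endpoints
      set A : ℝ := max Y₁ (Y - ε / 2) with hA
      set B : ℝ := min Y₂ (Y + ε / 2) with hB
      have hA1 : A < Y := max_lt hYm.1 (by linarith)
      have hB1 : Y < B := lt_min hYm.2 (by linarith)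
      have hAI : A ∈ Icc S.a S.b := ⟨hY₁.1.le.trans (le_max_left _ _), hA1.le.trans hYI.2⟩
      have hBI : B ∈ Icc S.a S.b := ⟨hYI.1.trans hB1.le, (min_le_left _ _).trans hY₂.2.le⟩
      have hmA : S.mn A < c' := by
        rw [← hmnY c' hc']
        exact mnS hAI hYI hA1
      have hmB : c' < S.mn B := by
        rw [← hmnY c' hc']
        exact mnS hYI hBI hB1
      have e1 := hre.eventually (lt_mem_nhds hmA)
      have e2 := hre.eventually (gt_mem_nhds hmB)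
      filter_upwards [hmem, e1, e2] with c hc h1 h2
      have hcI : c.re ∈ Ioo c₁ c₂ := ⟨hc.1, hc.2.1⟩
      have hYc := hYof c.re hcI
      have hYcI : Yof c.re ∈ Icc S.a S.b := hsub (Ioo_subset_Icc_self hYc)
      rw [← hmnY c.re hcI] at h1 h2
      have g1 : A < Yof c.re := (mnS.lt_iff_lt hAI hYcI).1 h1
      have g2 : Yof c.re < B := (mnS.lt_iff_lt hYcI hBI).1 h2
      have g3 : Y - ε / 2 ≤ A := le_max_right _ _
      have g4 : B ≤ Y + ε / 2 := min_le_right _ _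
      rw [Real.dist_eq, abs_lt]
      constructor <;> linarith
    -- velocity of the leaf
    have hVt : Tendsto (fun c : ℂ => ((S.V (Yof c.re) x 0 : ℝ) : ℂ))
        (𝓝[Rec c₁ c₂ η] (c' : ℂ)) (𝓝 ((S.V Y x 0 : ℝ) : ℂ)) := by
      have hVc := hS.Vcont (Y, x, 0) ⟨hYI, mem_univ _, m01⟩
      have hin : Tendsto (fun c : ℂ => ((Yof c.re, x, 0) : ℝ × ℝ × ℝ))
          (𝓝[Rec c₁ c₂ η] (c' : ℂ))
          (𝓝[Icc S.a S.b ×ˢ (univ ×ˢ Icc (0:ℝ) 1)] (Y, x, 0)) := by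
        refine tendsto_nhdsWithin_iff.2 ⟨?_, ?_⟩
        · exact hYt.prodMk_nhds (tendsto_const_nhds.prodMk_nhds tendsto_const_nhds)
        · filter_upwards [hmem] with c hc
          exact ⟨hsub (Ioo_subset_Icc_self (hYof c.re ⟨hc.1, hc.2.1⟩)), mem_univ _, m01⟩
      have := hVc.tendsto.comp hin
      exact (Complex.continuous_ofReal.tendsto _).comp this
    have hwt : Tendsto (fun c : ℂ => w c (x : ℂ) 0)
        (𝓝[Rec c₁ c₂ η] (c' : ℂ)) (𝓝 ((S.V Y x 0 : ℝ) : ℂ)) := by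
      have hdiff : Tendsto (fun c : ℂ => w c (x : ℂ) 0 - ((S.V (Yof c.re) x 0 : ℝ) : ℂ))
          (𝓝[Rec c₁ c₂ η] (c' : ℂ)) (𝓝 0) := by
        rw [Metric.tendsto_nhds]
        intro ε hε
        obtain ⟨η', hη', th⟩ := thin (ε / 2) (by linarith)
        have e1 := him.eventually (gt_mem_nhds hη')
        filter_upwards [hmem, e1] with c hc h1
        have hcI : c.re ∈ Ioo c₁ c₂ := ⟨hc.1, hc.2.1⟩
        have := th δ _ (w c) c hδT (hw c hc) h1.le (Yof c.re)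
          (hsub (Ioo_subset_Icc_self (hYof c.re hcI))) (hmnY c.re hcI) x 0 m01
        rw [dist_zero_right]
        linarith
      have := hdiff.add hVt
      simpa using this
    have hpc := momC (0, ((x : ℂ), (S.V Y x 0 : ℂ))) ⟨m01, nbleaf Y hYI x⟩
    have hin : Tendsto (fun c : ℂ => ((0, ((x : ℂ), w c (x : ℂ) 0)) : ℝ × (ℂ × ℂ)))
        (𝓝[Rec c₁ c₂ η] (c' : ℂ))
        (𝓝[{y : ℝ × (ℂ × ℂ) | y.1 ∈ Icc (0:ℝ) 1 ∧ y.2 ∈ S.Nb y.1 S.r}]
          (0, ((x : ℂ), (S.V Y x 0 : ℂ)))) := by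
      refine tendsto_nhdsWithin_iff.2 ⟨?_, ?_⟩
      · exact tendsto_const_nhds.prodMk_nhds (tendsto_const_nhds.prodMk_nhds hwt)
      · filter_upwards [hmem] with c hc
        refine ⟨m01, (hw c hc).nb (x : ℂ) ?_ 0 m01⟩
        show |(x : ℂ).im| < _
        simpa using (hw c hc).hρ
    exact hpc.tendsto.comp hin
  · -- (5)
    intro η' hη'
    obtain ⟨h, h0, hle⟩ := pos η' δ hη' hδP
    refine ⟨k0 * h, mul_pos hk0 h0, ?_⟩
    intro c hc hc' x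
    obtain ⟨-, -, -, -, -, -, b⟩ := torP δ _ (w c) c (hw c hc)
    have b1 := (b x 0 m01).1
    have := hle _ (w c) c (hw c hc) hc' x 0 m01
    exact (mul_le_mul_of_nonneg_left this hk0.le).trans b1
  · -- (6)
    intro h h0 h1 c hc hle
    have hs := strle c hc h h0 h1 hle
    have hsub' : Str (a1 * m' ^ k * h ^ k) ⊆ Str (a1 * hh c ^ k) := fun z hz =>
      lt_of_lt_of_le (show |z.im| < _ from hz) hs
    obtain ⟨sh, -⟩ := torP δ _ (w c) c (hw c hc)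
    refine ⟨(sh.hol 0 m01).mono hsub', ?_⟩
    intro z hz
    have hnb := (hw c hc).nb z (hsub' hz) 0 m01
    have := ((momP 0 m01).2.2 _ hnb).2.2.2.2.2.1
    exact this.trans (le_max_right _ _)
  · -- (7)
    intro h h0 h1
    set B : Set ℂ := {c | c ∈ Rec c₁ c₂ η ∧ ∀ x : ℝ, h ≤ (S.p 0 (x : ℂ) (w c x 0)).im} with hB
    have hρ0 : 0 < a1 * m' ^ k * h ^ k := by positivity
    have hT : ∀ c ∈ B, Tor S δ (w c) (a1 * m' ^ k * h ^ k) c := by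
      intro c hc
      have hs := strle c hc.1 h h0 h1 hc.2
      exact (hShrink S hS S.r δ _ (w c) c (by linarith) (hw c hc.1)).1 _ hρ0 hs
    have hcont := contS δ (a1 * m' ^ k * h ^ k) (m' * h) B w hδC hρ0 (by positivity) hT
      (fun c hc => lowh c hc.1 h h0 hc.2)
    intro q hq
    obtain ⟨hq1, hq2, hq3⟩ := hq
    have hqB : q.2 ∈ B := ⟨hq1, hq2⟩
    have hqS : q.1 ∈ Str (a1 * m' ^ k * h ^ k) := hq3
    have hwc := hcont q ⟨hqS, hqB⟩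
    have hpc := momC (0, (q.1, w q.2 q.1 0)) ⟨m01, (hT q.2 hqB).nb q.1 hqS 0 m01⟩
    have hin : Tendsto (fun q : ℂ × ℂ => ((0, (q.1, w q.2 q.1 0)) : ℝ × (ℂ × ℂ)))
        (𝓝[{q | q.2 ∈ Rec c₁ c₂ η ∧ (∀ x : ℝ, h ≤ (S.p 0 (x : ℂ) (w q.2 x 0)).im) ∧
          |q.1.im| < a1 * m' ^ k * h ^ k}] q)
        (𝓝[{y : ℝ × (ℂ × ℂ) | y.1 ∈ Icc (0:ℝ) 1 ∧ y.2 ∈ S.Nb y.1 S.r}]
          (0, (q.1, w q.2 q.1 0))) := by
      refine tendsto_nhdsWithin_iff.2 ⟨?_, ?_⟩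
      · refine tendsto_const_nhds.prodMk_nhds (Tendsto.prodMk_nhds ?_ ?_)
        · exact (continuous_fst.tendsto q).mono_left nhdsWithin_le_nhds
        · refine hwc.tendsto.mono_left (nhdsWithin_mono _ ?_)
          rintro q' ⟨h1', h2', h3'⟩
          exact ⟨h3', h1', h2'⟩
      · filter_upwards [self_mem_nhdsWithin] with q' hq'
        obtain ⟨h1', h2', h3'⟩ := hq'
        exact ⟨m01, (hT q'.2 ⟨h1', h2'⟩).nb q'.1 h3' 0 m01⟩
    exact hpc.tendsto.comp hin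
  · -- (8)
    intro Y hY x
    have hYI : Y ∈ Icc S.a S.b := hsub (Ioo_subset_Icc_self hY)
    have h1I : Y₁ ∈ Icc S.a S.b := Ioo_subset_Icc_self hY₁
    have h2I : Y₂ ∈ Icc S.a S.b := Ioo_subset_Icc_self hY₂
    have hc : S.mn Y ∈ Ioo c₁ c₂ := ⟨mnS h1I hYI hY.1, mnS hYI h2I hY.2⟩
    have h3 := hmnY (S.mn Y) hc
    have h4 : Yof (S.mn Y) = Y :=
      mnS.injOn (hsub (Ioo_subset_Icc_self (hYof _ hc))) hYI h3
    show (S.p 0 (x : ℂ) (S.V (Yof (S.mn Y)) x 0 : ℂ)).re = _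
    rw [h4]

end Pool.Agent.Helper45.FT
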